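import Pool.Agent.Helper73.SNC.Val
import Pool.Agent.Helper7.CYC.OddAsm

/-!
# The relations over a quotient of the valuation ring, with a parameter

`relT`: the gap relation for the roots of unity over `L[X]`, `L` a quotient of a domain `V`.
`relsV`: T1 and E2 weights from the gap of the elementary symmetric functions of `A`.
-/

set_option autoImplicit false

namespace Pool.Agent.Helper41.CYC

open Finset Polynomial Pool.Agent.Helper10.CYC Pool.Agent.Helper7.SN Pool.Agent.Helper73
  Pool.Agent.Helper73.SNC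

/-- The relation over a quotient of a domain, with a parameter. -/
theorem relT_quot {R S : Type} [CommRing R] [IsDomain R] [CommRing S] (φ : R →+* S)
    (hφ : Function.Surjective φ) {k b : ℕ} (u : Fin k → ℕ) (x : Fin k → R)
    (hx : Function.Injective x)
    (hW : ∀ σ : Equiv.Perm (Fin k),
      ∑ s ∈ univ.filter (fun s : Equiv.Perm (Fin k) => Good k b u s),
        ∏ i, x (σ i) ^ (s i : ℕ) = 0) :
    Rel (R := S[X]) ((∏ i, (X - C (φ (x i)))).map C) b u := by
  have hs : Function.Surjective (Polynomial.mapRingHom φ) := fun y =>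
    Polynomial.map_surjective φ hφ y
  have h := rel_quot (Polynomial.mapRingHom φ) hs (b := b) u (fun i => (C (x i) : R[X]))
    (fun i j hij => hx (C_injective hij)) (fun σ => by
      have h1 := congrArg (C : R →+* R[X]) (hW σ)
      rw [map_zero, map_sum] at h1
      rw [← h1]
      refine Finset.sum_congr rfl (fun s _ => ?_)
      rw [map_prod]
      refine Finset.prod_congr rfl (fun i _ => ?_)
      rw [map_pow])
  have e : Polynomial.map (S := S[X]) C (∏ i, (X - C (φ (x i))))
      = ∏ i, (X - C ((Polynomial.mapRingHom φ) (C (x i)))) := by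
    rw [Polynomial.map_prod]
    refine Finset.prod_congr rfl (fun i _ => ?_)
    simp
  rw [e]
  exact h

variable {n : ℕ} [NeZero n]

/-- From the complex relation to the valuation ring. -/
lemma W_V (V : ValuationSubring ℂ) {k b : ℕ} (u : Fin k → ℕ) (x : Fin k → V)
    (hW : ∀ σ : Equiv.Perm (Fin k), W b (fun i => ((x (σ i) : V) : ℂ)) u = 0)
    (σ : Equiv.Perm (Fin k)) :
    ∑ s ∈ univ.filter (fun s : Equiv.Perm (Fin k) => Good k b u s),
        ∏ i, x (σ i) ^ (s i : ℕ) = 0 := by
  apply FaithfulSMul.algebraMap_injective V ℂ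
  rw [map_zero, map_sum, ← hW σ, W]
  refine Finset.sum_congr rfl (fun s _ => ?_)
  rw [map_prod]
  refine Finset.prod_congr rfl (fun i _ => ?_)
  rw [map_pow]
  rfl

/-- One weight. -/
theorem rel_V (V : ValuationSubring ℂ) {L : Type} [CommRing L] (φ : V →+* L)
    (hφ : Function.Surjective φ) {k : ℕ} {A B : Finset (ZMod n)} (h : ¬ Tr A B)
    (a b : Fin k → ZMod n) (ha : Function.Injective a) (hb : Function.Injective b)
    (hA : univ.image a = A) (hB : univ.image b = B) (bb : ℕ) (hb0 : 0 < bb) (hbk : bb ≤ k)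
    (u : Fin k → ℕ) (hu : ∑ i, u i = bb) (hne : SNC.es (fun i => chi (a i)) bb ≠ 0)
    (he : ∀ i, (supp u).card ≤ i → i < bb → SNC.es (fun i => chi (a i)) i = 0) :
    Rel (∏ i, (X - C (φ (psiV V (b i))))) bb u ∧
    Rel (R := L[X]) ((∏ i, (X - C (φ (psiV V (b i))))).map C) bb u := by
  have hW := W_V V (b := bb) u (fun i => psiV V (b i)) (fun σ =>
    Helper7.CYC.W_zero h a b ha hb hA hB bb hb0 hbk u hu hne he σ)
  have hinj : Function.Injective (fun i => psiV V (b i)) := (psiV_inj V).comp hb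
  exact ⟨rel_quot φ hφ u _ hinj hW, relT_quot φ hφ u _ hinj hW⟩

/-- The T1 weight at the lower end of the gap. -/
theorem rel_V1 (V : ValuationSubring ℂ) {L : Type} [CommRing L] (φ : V →+* L)
    (hφ : Function.Surjective φ) {k : ℕ} {A B : Finset (ZMod n)} (h : ¬ Tr A B)
    (a b : Fin k → ZMod n) (ha : Function.Injective a) (hb : Function.Injective b)
    (hA : univ.image a = A) (hB : univ.image b = B) (m : ℕ) (hm0 : 0 < m) (hmk : m ≤ k)
    (hne : SNC.es (fun i => chi (a i)) m ≠ 0) :
    Rel (∏ i, (X - C (φ (psiV V (b i))))) m (u1 k m) ∧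
    Rel (R := L[X]) ((∏ i, (X - C (φ (psiV V (b i))))).map C) m (u1 k m) := by
  refine rel_V V φ hφ h a b ha hb hA hB m hm0 hmk (u1 k m) (Helper7.CYC.sum_u1 k m hmk) hne ?_
  intro i hi1 hi2
  rw [Helper7.CYC.supp_u1, Helper7.CYC.card_lt_filter k m hmk] at hi1
  omega

/-- The E2 weights. -/
theorem rel_V2 (V : ValuationSubring ℂ) {L : Type} [CommRing L] (φ : V →+* L)
    (hφ : Function.Surjective φ) {k : ℕ} {A B : Finset (ZMod n)} (h : ¬ Tr A B)
    (a b : Fin k → ZMod n) (ha : Function.Injective a) (hb : Function.Injective b)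
    (hA : univ.image a = A) (hB : univ.image b = B) (m : ℕ) (hm0 : 0 < m)
    (hmk : m ≤ k) (hne : SNC.es (fun i => chi (a i)) (k - m) ≠ 0)
    (hgap : ∀ i, m < i → i < k - m → SNC.es (fun i => chi (a i)) i = 0)
    (s jj : ℕ) (hs : m ≤ s) (hjj : 2 ≤ jj) (hk : s + jj = k - m) (z : Fin k) (hz : s ≤ (z : ℕ)) :
    Rel (∏ i, (X - C (φ (psiV V (b i))))) (s + jj) (u2 k s jj z) ∧
    Rel (R := L[X]) ((∏ i, (X - C (φ (psiV V (b i))))).map C) (s + jj) (u2 k s jj z) := by
  refine rel_V V φ hφ h a b ha hb hA hB (s + jj) (by omega) (by omega) (u2 k s jj z)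
    (Helper7.CYC.sum_u2 k s jj z hz) (by rw [hk]; exact hne) ?_
  intro i hi1 hi2
  rw [Helper7.CYC.card_supp_u2 k s jj z hz hjj] at hi1
  exact hgap i (by omega) (by omega)

end Pool.Agent.Helper41.CYC
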