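import Pool.Agent.Helper42.CYC.StmtsC
import Pool.Agent.Helper73.SNC.EvenAsm
import Pool.Agent.Helper41.CYC.Rels

/-!
# C7: assembly of track C

`st_gap`: the gap statement of `Helper73/SNC/EvenAsm.lean` from the arithmetic piece `ST_ARITH`
and the extraction piece `ST_CORE`; `st_even`: the input of `good_of_core`;
`main_of_arith_core`: the frozen statement from the two pieces.
-/

set_option autoImplicit false

namespace Pool.Agent.Helper41.CYC

open Finset Polynomial Pool.Agent.Helper10.CYC Pool.Agent.Helper7.SN Pool.Agent.Helper73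
  Pool.Agent.Helper73.SNC Pool.Agent.Helper42.CYC IsLocalRing

/-- The algebraic integers in a valuation ring. -/
noncomputable def toV (V : ValuationSubring ℂ) : integralClosure ℤ ℂ →+* V where
  toFun z := ⟨(z : ℂ), mem_V_of_isIntegral V z.2⟩
  map_zero' := rfl
  map_one' := rfl
  map_add' _ _ := rfl
  map_mul' _ _ := rfl

lemma toV_inj (V : ValuationSubring ℂ) : Function.Injective (toV V) := by
  intro x y h
  apply Subtype.ext
  exact congrArg (fun z : V => (z : ℂ)) h

lemma toV_ichi (V : ValuationSubring ℂ) {n : ℕ} [NeZero n] (a : ZMod n) :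
    toV V (Helper7.CYC.ichi a) = psiV V a := rfl

/-- One side: a gap of `A` (of any width) and no transversal make `B` periodic. -/
theorem per_side (h1 : ST_ARITH) (h2 : ST_CORE) {n : ℕ} [NeZero n] (r m : ℕ)
    (A B : Finset (ZMod n)) (a b : Fin (2 * r) → ZMod n) (hn : Even n) (h : ¬ Tr A B)
    (hcos : ¬ IsCos (2 * r) A) (ha : Function.Injective a) (hb : Function.Injective b)
    (hA : univ.image a = A) (hB : univ.image b = B) (hm0 : 0 < m) (hmr : m + 1 ≤ r)
    (hm1 : SNC.es (fun i => chi (a i)) m ≠ 0)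
    (hm2 : SNC.es (fun i => chi (a i)) (2 * r - m) ≠ 0)
    (hgap : ∀ i, m < i → i < 2 * r - m → SNC.es (fun i => chi (a i)) i = 0) :
    ∀ x ∈ B, x + ((n / 2 : ℕ) : ZMod n) ∈ B := by
  by_contra hper
  obtain ⟨V, hV⟩ := exists_V
  have := charP_res V hV
  have hφ0 : ∀ (k b : ℕ) (u : Fin k → ℕ)
      (x : Fin k → integralClosure ℤ ℂ) (_ : Function.Injective x)
      (_ : ∀ σ : Equiv.Perm (Fin k), W b (fun i => ((x (σ i) : integralClosure ℤ ℂ) : ℂ)) u = 0),
        Rel (∏ i, (X - C (((residue V).comp (toV V)) (x i)))) b u := by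
    intro k b u x hx hW
    exact rel_quot_V V (residue V) residue_surjective u (fun i => toV V (x i))
      ((toV_inj V).comp hx) hW
  obtain ⟨D, hD, hD0, hk, hf⟩ := Helper7.CYC.square_of_not_coset Helper91.CYC.st_a5
    Helper10.CYC.st_c Helper10.CYC.st_d Helper91.CYC.st_e Helper47.CYC.st_f Helper75.CYC.st_g
    ((residue V).comp (toV V)) hφ0 h a b ha hb hA hB hcos
  obtain ⟨L, i1, i2, φ, red, α, S, g, V', p, Mi, hφ, hres, hal, hun, hFO, h0, hp, hMi, hMn,
    hS, hg⟩ := h1 V hV n hn r b hb ⟨D, hf⟩ (by rw [hB]; exact hper)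
  have hrs : Function.Surjective red := by
    intro y
    obtain ⟨x, rfl⟩ := residue_surjective y
    exact ⟨φ x, hres x⟩
  obtain ⟨c1, c2⟩ := h2 L (ResidueField V) red α r (by omega) S g _ hrs hal hun hFO V' p Mi
    h0 hp hMi hMn hS hg
  rcases Nat.lt_or_ge (m + 1) r with hlt | hge
  · refine c2 (2 * r - m - (r - 1)) (by omega) (by omega) ⟨?_, ?_⟩
    · intro z hz
      exact (rel_V2 V φ hφ h a b ha hb hA hB m hm0 (by omega) hm2 hgap (r - 1)
        (2 * r - m - (r - 1)) (by omega) (by omega) (by omega) z hz).1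
    · intro z hz
      exact (rel_V2 V φ hφ h a b ha hb hA hB m hm0 (by omega) hm2 hgap r
        (2 * r - m - (r - 1) - 1) (by omega) (by omega) (by omega) z hz).1
  · have hm : m = r - 1 := by omega
    subst hm
    exact c1 (rel_V1 V φ hφ h a b ha hb hA hB (r - 1) hm0 (by omega) hm1).1

/-- The gap statement. -/
theorem st_gap (h1 : ST_ARITH) (h2 : ST_CORE) : ST_Gap := by
  intro n _ r m A B a b hn h hcos ha hb hA hB hm0 hmr hm1 hm2 hgap hper _
  exact hper (per_side h1 h2 r m A B a b hn h hcos ha hb hA hB hm0 (by omega) hm1 hm2 hgap)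

/-- **The frozen statement, from the arithmetic and the extraction piece.** -/
theorem main_of_arith_core (h1 : ST_ARITH) (h2 : ST_CORE) : ∀ n : ℕ, 0 < n → Even n →
      ∀ A B : Finset (ZMod n), A.card = B.card →
        (¬ ∃ f : ZMod n → ZMod n,
            Set.BijOn f (A : Set (ZMod n)) (B : Set (ZMod n)) ∧
            Set.InjOn (fun a => a + f a) (A : Set (ZMod n))) →
        ∃ H : AddSubgroup (ZMod n), Even (Nat.card H) ∧
          ∃ a b : ZMod n,
            (∀ x : ZMod n, x ∈ A ↔ x - a ∈ H) ∧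
            (∀ x : ZMod n, x ∈ B ↔ x - b ∈ H) :=
  main_of_gap (st_gap h1 h2)

end Pool.Agent.Helper41.CYC
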